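import Mathlib
import Pool.Agent.Q212.DB4

/-!
# Closure of disagreement bounds under pointwise minimum
-/

namespace Pool.Agent.Results.MP_4c6e08_pr.ClosedUnderMin

open Pool.Agent.Q212.DB

/-- The pointwise minimum of two disagreement bounds is a disagreement bound. -/
theorem result : ∀ f₁ f₂ : ℝ → ℝ, IsDisagreementBound f₁ → IsDisagreementBound f₂ →
    IsDisagreementBound (fun x => min (f₁ x) (f₂ x)) :=
  fun _ _ h1 h2 => min_bound h1 h2

end Pool.Agent.Results.MP_4c6e08_pr.ClosedUnderMin
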